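import Pool.Agent.W845.TR.Base

set_option autoImplicit false
open scoped BigOperators
open MeasureTheory

/-!
Project TR (MP_985e29_pr): boundary estimate of the free energy difference.
-/

namespace Pool.Agent.W215.TR

open Pool.Agent.W845.TR

variable {d : ℕ}

theorem alpha_le_split (H R : Finset (S d)) : alpha H ≤ alpha (H ∩ R) + alpha (H \ R) := by
  obtain ⟨I, h1, h2, h3⟩ := exists_maxInd H
  have h4 : I.card = (I ∩ R).card + (I \ R).card := (Finset.card_inter_add_card_sdiff I R).symm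
  have h5 := indep_card_le (Finset.inter_subset_inter_right h1 : I ∩ R ⊆ H ∩ R)
    (h2.subset Finset.inter_subset_left)
  have h6 := indep_card_le (Finset.sdiff_subset_sdiff h1 (Finset.Subset.refl R) : I \ R ⊆ H \ R)
    (h2.subset Finset.sdiff_subset)
  omega

theorem alpha_split_le (H R P : Finset (S d)) (hP : ∀ x ∈ R, ∀ y, adj x y → y ∉ R → y ∈ P) :
    alpha (H ∩ R) + alpha (H \ R) ≤ alpha H + P.card := by
  obtain ⟨I1, h1, h2, h3⟩ := exists_maxInd (H ∩ R)
  obtain ⟨I2, k1, k2, k3⟩ := exists_maxInd (H \ R)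
  have hsub : I1 ∪ (I2 \ P) ⊆ H := by
    intro x hx
    rcases Finset.mem_union.1 hx with hx | hx
    · exact (Finset.mem_inter.1 (h1 hx)).1
    · exact (Finset.mem_sdiff.1 (k1 (Finset.mem_sdiff.1 hx).1)).1
  have hcross : ∀ x ∈ I1, ∀ y ∈ I2 \ P, ¬ adj x y := by
    intro x hx y hy hxy
    have hxR := (Finset.mem_inter.1 (h1 hx)).2
    have hyR := (Finset.mem_sdiff.1 (k1 (Finset.mem_sdiff.1 hy).1)).2
    exact (Finset.mem_sdiff.1 hy).2 (hP x hxR y hxy hyR)
  have hind : Indep (I1 ∪ (I2 \ P)) := by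
    intro x hx y hy hxy
    rcases Finset.mem_union.1 hx with hx | hx <;> rcases Finset.mem_union.1 hy with hy | hy
    · exact h2 x hx y hy hxy
    · exact hcross x hx y hy hxy
    · exact hcross y hy x hx (adj_symm hxy)
    · exact k2 x (Finset.mem_sdiff.1 hx).1 y (Finset.mem_sdiff.1 hy).1 hxy
  have hdisj : Disjoint I1 (I2 \ P) := by
    rw [Finset.disjoint_left]
    intro x hx hy
    have hxR := (Finset.mem_inter.1 (h1 hx)).2
    exact (Finset.mem_sdiff.1 (k1 (Finset.mem_sdiff.1 hy).1)).2 hxR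
  have h5 := indep_card_le hsub hind
  rw [Finset.card_union_of_disjoint hdisj] at h5
  have h6 : I2.card ≤ (I2 \ P).card + P.card := by
    have := Finset.card_inter_add_card_sdiff I2 P
    have h7 := Finset.card_le_card (Finset.inter_subset_right : I2 ∩ P ⊆ P)
    omega
  omega

theorem aw2 : St_AW2 := by
  intro d L N A A' hLN hA
  set R := box d L with hR
  set P := box d (L + 1) \ box d L with hPdef
  set Lam := box d N with hLam
  have hP : ∀ x ∈ R, ∀ y, adj x y → y ∉ R → y ∈ P := by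
    intro x hx y hxy hy
    refine Finset.mem_sdiff.2 ⟨ball_box (r := 1) le_rfl hx ?_, hy⟩
    have : l1 x y = 1 := hxy
    rw [this]; norm_num
  have hnb : ∀ x ∈ R, x ∈ Lam ∧ nb x ⊆ Lam := by
    intro x hx
    refine ⟨box_mono (by omega) hx, fun y hy => ball_box (r := 1) hLN hx ?_⟩
    have : l1 x y = 1 := mem_nb.1 hy
    rw [this]; norm_num
  have hin : ∀ (b : Bool) (B : Finset (S d)), bd Lam b ((B : Set (S d))ᶜ) ∩ R = R \ B := by
    intro b B
    ext x
    rw [Finset.mem_inter, mem_bd, Finset.mem_sdiff, Set.mem_compl_iff, Finset.mem_coe]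
    constructor
    · rintro ⟨⟨_, _, h⟩, h2⟩; exact ⟨h2, h⟩
    · rintro ⟨h1, h2⟩; exact ⟨⟨(hnb x h1).1, Or.inr (hnb x h1).2, h2⟩, h1⟩
  have hout : ∀ (b : Bool), bd Lam b ((A : Set (S d))ᶜ) \ R = bd Lam b ((A' : Set (S d))ᶜ) \ R := by
    intro b
    ext x
    rw [Finset.mem_sdiff, mem_bd, Finset.mem_sdiff, mem_bd, Set.mem_compl_iff, Finset.mem_coe,
      Set.mem_compl_iff, Finset.mem_coe]
    constructor
    · rintro ⟨⟨h1, h2, h3⟩, h4⟩; exact ⟨⟨h1, h2, fun h => h3 ((hA x h4).2 h)⟩, h4⟩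
    · rintro ⟨⟨h1, h2, h3⟩, h4⟩; exact ⟨⟨h1, h2, fun h => h3 ((hA x h4).1 h)⟩, h4⟩
  have e1 : ∀ (b : Bool) (B : Finset (S d)),
      al Lam b B ≤ alpha (R \ B) + alpha (bd Lam b ((B : Set (S d))ᶜ) \ R) ∧
      alpha (R \ B) + alpha (bd Lam b ((B : Set (S d))ᶜ) \ R) ≤ al Lam b B + P.card := by
    intro b B
    have h1 := alpha_le_split (bd Lam b ((B : Set (S d))ᶜ)) R
    have h2 := alpha_split_le (bd Lam b ((B : Set (S d))ᶜ)) R P hP
    rw [hin] at h1 h2
    exact ⟨h1, h2⟩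
  have a1 := e1 true A
  have a2 := e1 false A
  have a3 := e1 true A'
  have a4 := e1 false A'
  rw [hout true] at a1
  rw [hout false] at a2
  unfold FF
  rw [abs_le]
  constructor <;> omega

end Pool.Agent.W215.TR
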