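import Pool.Agent.W845.TR.Base

set_option autoImplicit false
open scoped BigOperators
open MeasureTheory

/-!
Project TR (MP_985e29_pr): the four game lemmas on boards with boundary condition.
-/

namespace Pool.Agent.W215.TR

open Pool.Agent.W845.TR

variable {d : ℕ}

/-- A win on the finite board is a win on the whole board. -/
theorem transfer {Lam : Finset (S d)} {b : Bool} {O : Set (S d)} :
    ∀ (n : ℕ) (x : S d) (A : Finset (S d)), par x = b →
      W ((bd Lam b O : Finset (S d)) : Set (S d)) n x A → W O n x A := by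
  intro n
  induction n with
  | zero => intro x A _ hW; exact hW
  | succ n ih =>
    intro x A hx hW
    obtain ⟨y, hy, h2⟩ := hW
    have hyH := mem_bd.1 (Finset.mem_coe.1 hy.2.1)
    refine ⟨y, ⟨hy.1, hyH.2.2, hy.2.2⟩, fun z hz => ?_⟩
    have hpy : par y = !b := by rw [par_adj hy.1, hx]
    have hny : nb y ⊆ Lam := by
      rcases hyH.2.1 with h | h
      · rw [hpy] at h; cases b <;> simp at h
      · exact h
    have hpz : par z = b := by rw [par_adj hz.1, hpy]; simp
    have hzH : z ∈ bd Lam b O := mem_bd.2 ⟨hny (mem_nb.2 hz.1), Or.inl hpz, hz.2.1⟩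
    exact ih z _ hpz (h2 z ⟨hz.1, Finset.mem_coe.2 hzH, hz.2.2⟩)

theorem g1 : St_MAT → St_G1 := by
  intro hM d Lam O x hx hxO hI
  have hxH : x ∈ bd Lam (par x) O := mem_bd.2 ⟨hx, Or.inl rfl, hxO⟩
  have h1 := (hM d (bd Lam (par x) O) x hxH).1 hI
  have h2 := transfer _ _ _ rfl h1
  refine W_mono ?_ h2
  classical
  unfold bd
  exact Finset.card_filter_le _ _

theorem g2 : St_MAT → St_G2 := by
  intro hM d Lam O x hx hnx hxO hI y hy
  have hxH : x ∈ bd Lam (!par x) O := mem_bd.2 ⟨hx, Or.inr hnx, hxO⟩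
  have hpy : par y = !par x := par_adj hy.1
  have hyH : y ∈ bd Lam (!par x) O := mem_bd.2 ⟨hnx (mem_nb.2 hy.1), Or.inl hpy, hy.2.1⟩
  have h1 := (hM d (bd Lam (!par x) O) x hxH).2 hI y ⟨hy.1, Finset.mem_coe.2 hyH, hy.2.2⟩
  have h2 := transfer _ _ _ hpy h1
  refine W_mono ?_ h2
  classical
  unfold bd
  exact Finset.card_filter_le _ _

theorem gd1 : St_MAT → St_GD1 := by
  intro hM d Lam O x n hball hxO hW
  by_contra hc
  push Not at hc
  have hxL : x ∈ Lam := hball x (by rw [l1_self]; positivity)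
  have hxH : x ∈ bd Lam (par x) O := mem_bd.2 ⟨hxL, Or.inl rfl, hxO⟩
  have h2 := (hM d (bd Lam (par x) O) x hxH).2 hc
  have h1 : W ((bd Lam (par x) O : Finset (S d)) : Set (S d)) n x {x} := by
    refine W_local (fun y hy => ?_) hW
    rw [Finset.mem_coe, mem_bd]
    constructor
    · intro hyO
      refine ⟨hball y (by omega), Or.inr (fun z hz => hball z ?_), hyO⟩
      have h3 : l1 y z = 1 := mem_nb.1 hz
      have h4 := l1_tri x y z
      omega
    · intro h; exact h.2.2
  exact W_excl _ n _ le_rfl x {x} h1 (fun y hy => h2 y hy)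

theorem gd2 : St_MAT → St_GD2 := by
  intro hM d Lam O x n hball hxO hW I hI
  by_contra hc
  have hxL : x ∈ Lam := hball x (by rw [l1_self]; positivity)
  have hnx : nb x ⊆ Lam := by
    intro z hz
    have h3 : l1 x z = 1 := mem_nb.1 hz
    exact hball z (by omega)
  have hxH : x ∈ bd Lam (!par x) O := mem_bd.2 ⟨hxL, Or.inr hnx, hxO⟩
  have h1 := (hM d (bd Lam (!par x) O) x hxH).1 ⟨I, hI, hc⟩
  refine W_excl _ _ n le_rfl x {x} h1 (fun y hy => ?_)
  have hyO : y ∈ O := (mem_bd.1 (Finset.mem_coe.1 hy.2.1)).2.2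
  have h2 := hW y ⟨hy.1, hyO, hy.2.2⟩
  have hxy : l1 x y = 1 := hy.1
  refine W_local (fun z hz => ?_) h2
  rw [Finset.mem_coe, mem_bd]
  constructor
  · intro hzO
    have h4 := l1_tri x y z
    refine ⟨hball z (by omega), Or.inr (fun w hw => hball w ?_), hzO⟩
    have h5 : l1 z w = 1 := mem_nb.1 hw
    have h6 := l1_tri x z w
    omega
  · intro h; exact h.2.2

end Pool.Agent.W215.TR
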